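import Mathlib

/-!
# Rational roots of the polynomials `S_n`

`S_0 = 1`, `S_1 = x`, `S_{n+1} = (x + 2n(n+1)) S_n - n^4 S_{n-1}`.
For even `n` the polynomial `S_n` has no rational root; for odd `n` it has at most one, and such a
root is an even integer; and for `n = 2m+1`, `2^b ∣ m`, `b ≥ 1`, `3 ≤ n ≤ 4^(b+1)`, there is none.
-/

namespace Pool.Agent.Results.MP_11e6b7_nt.RationalRoots

open Polynomial

/-- `S_0 = 1`, `S_1 = x`, `S_{n+2} = (x + 2(n+1)(n+2)) S_{n+1} - (n+1)^4 S_n`. -/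
noncomputable def S : ℕ → ℤ[X]
  | 0 => 1
  | 1 => X
  | (n + 2) => (X + C (2 * ((n : ℤ) + 1) * ((n : ℤ) + 2))) * S (n + 1)
      - C (((n : ℤ) + 1) ^ 4) * S n

theorem eval_rec (n : ℕ) (x : ℤ) :
    (S (n + 2)).eval x = (x + 2 * ((n : ℤ) + 1) * ((n : ℤ) + 2)) * (S (n + 1)).eval x
      - ((n : ℤ) + 1) ^ 4 * (S n).eval x := by
  simp only [S, eval_sub, eval_mul, eval_add, eval_X, eval_C]

theorem monic_deg (n : ℕ) : (S n).Monic ∧ (S n).natDegree = n := by
  induction n using Nat.strong_induction_on with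
  | _ n ih =>
    match n, ih with
    | 0, _ => exact ⟨by simp [S], by simp [S]⟩
    | 1, _ => exact ⟨by simp [S], by simp [S]⟩
    | (n + 2), ih =>
      obtain ⟨m1, d1⟩ := ih (n + 1) (by omega)
      obtain ⟨m0, d0⟩ := ih n (by omega)
      have hm : ((X + C (2 * ((n : ℤ) + 1) * ((n : ℤ) + 2))) * S (n + 1)).Monic :=
        (monic_X_add_C _).mul m1
      have hd : ((X + C (2 * ((n : ℤ) + 1) * ((n : ℤ) + 2))) * S (n + 1)).natDegree = n + 2 := by
        rw [(monic_X_add_C _).natDegree_mul m1, natDegree_X_add_C, d1]; omega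
      have hlt : (C (((n : ℤ) + 1) ^ 4) * S n).natDegree < n + 2 := by
        refine lt_of_le_of_lt (natDegree_C_mul_le _ _) ?_
        omega
      have hdeg : (C (((n : ℤ) + 1) ^ 4) * S n).degree
          < ((X + C (2 * ((n : ℤ) + 1) * ((n : ℤ) + 2))) * S (n + 1)).degree := by
        rw [degree_eq_natDegree hm.ne_zero, hd]
        refine lt_of_le_of_lt degree_le_natDegree ?_
        exact_mod_cast hlt
      refine ⟨?_, ?_⟩
      · rw [S]; exact hm.sub_of_left hdeg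
      · rw [S, natDegree_sub_eq_left_of_natDegree_lt (by rw [hd]; exact hlt), hd]

/-- `q j = C(k,j) C(k+j,j)`. -/
def q (k j : ℕ) : ℤ := (k.choose j : ℤ) * ((k + j).choose j : ℤ)

theorem q_rec (k j : ℕ) :
    ((j : ℤ) + 1) ^ 2 * q k (j + 1) = ((k : ℤ) ^ 2 + k - j * (j + 1)) * q k j := by
  have h1 : ((k.choose (j + 1) : ℕ) : ℤ) * ((j : ℤ) + 1) = (k.choose j : ℤ) * ((k : ℤ) - j) := by
    rcases le_or_gt j k with h | h
    · have := Nat.choose_succ_right_eq k j
      have h' : ((k.choose (j + 1) * (j + 1) : ℕ) : ℤ) = ((k.choose j * (k - j) : ℕ) : ℤ) := by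
        rw [this]
      push_cast [Nat.cast_sub h] at h'
      exact h'
    · rw [Nat.choose_eq_zero_of_lt h, Nat.choose_eq_zero_of_lt (by omega)]; simp
  have h2 : (((k + (j + 1)).choose (j + 1) : ℕ) : ℤ) * ((j : ℤ) + 1)
      = ((k : ℤ) + j + 1) * ((k + j).choose j : ℤ) := by
    have := Nat.add_one_mul_choose_eq (k + j) j
    have h' : (((k + j + 1) * (k + j).choose j : ℕ) : ℤ)
        = (((k + j + 1).choose (j + 1) * (j + 1) : ℕ) : ℤ) := by
      exact_mod_cast this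
    push_cast at h'
    rw [← add_assoc]
    linarith
  unfold q
  have : ((j : ℤ) + 1) ^ 2 * (((k.choose (j + 1) : ℕ) : ℤ) * (((k + (j + 1)).choose (j + 1) : ℕ) : ℤ))
      = (((k.choose (j + 1) : ℕ) : ℤ) * ((j : ℤ) + 1)) *
        ((((k + (j + 1)).choose (j + 1) : ℕ) : ℤ) * ((j : ℤ) + 1)) := by ring
  rw [this, h1, h2]
  ring

theorem q_even (k j : ℕ) (hj : 1 ≤ j) : (2 : ℤ) ∣ q k j := by
  unfold q
  rcases le_or_gt j k with h | h
  · have h1 := Nat.choose_mul (n := k + j) (k := 2 * j) (s := j) (by omega)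
    have h2 : k + j - j = k := by omega
    have h3 : 2 * j - j = j := by omega
    rw [h2, h3] at h1
    have h4 : 2 ∣ (2 * j).choose j := by
      have := Nat.two_dvd_centralBinom_of_one_le hj
      rwa [Nat.centralBinom] at this
    have h5 : 2 ∣ k.choose j * (k + j).choose j := by
      rw [mul_comm, ← h1]
      exact Dvd.dvd.mul_left h4 _
    exact_mod_cast h5
  · rw [Nat.choose_eq_zero_of_lt h]; simp

/-- `D n k = ∑_j C(n,j) C(k,j) C(k+j,j)`. -/
def D (n k : ℕ) : ℤ := ∑ j ∈ Finset.range (n + 1), (n.choose j : ℤ) * q k j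

theorem D_odd (n k : ℕ) : Odd (D n k) := by
  unfold D
  rw [Finset.sum_range_succ']
  have h0 : ((n.choose 0 : ℕ) : ℤ) * q k 0 = 1 := by simp [q]
  rw [h0]
  have : (2 : ℤ) ∣ ∑ j ∈ Finset.range n, ((n.choose (j + 1) : ℕ) : ℤ) * q k (j + 1) :=
    Finset.dvd_sum fun j _ => Dvd.dvd.mul_left (q_even k (j + 1) (by omega)) _
  obtain ⟨c, hc⟩ := this
  exact ⟨c, by rw [hc]⟩

theorem D_ext (n k m : ℕ) (hm : n + 1 ≤ m) :
    ∑ j ∈ Finset.range m, (n.choose j : ℤ) * q k j = D n k := by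
  unfold D
  symm
  apply Finset.sum_subset
  · intro x hx; simp only [Finset.mem_range] at *; omega
  · intro x _ hx
    simp only [Finset.mem_range, not_lt] at hx
    rw [Nat.choose_eq_zero_of_lt (by omega)]; simp

theorem coef (n i : ℕ) :
    ((n : ℤ) + 2) ^ 2 * ((n + 2).choose (i + 1) : ℤ)
      - (1 + 2 * ((n : ℤ) + 1) * (n + 2) + ((i : ℤ) + 1) * (i + 2)) * ((n + 1).choose (i + 1) : ℤ)
      + ((n : ℤ) + 1) ^ 2 * (n.choose (i + 1) : ℤ)
      = ((i : ℤ) + 1) ^ 2 * ((n + 1).choose i : ℤ) := by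
  have hp : ((n + 2).choose (i + 1) : ℤ) = ((n + 1).choose i : ℤ) + ((n + 1).choose (i + 1) : ℤ) := by
    exact_mod_cast Nat.choose_succ_succ (n + 1) i
  have hab : ((n + 1).choose (i + 1) : ℤ) * ((i : ℤ) + 1)
      = ((n + 1).choose i : ℤ) * ((n : ℤ) + 1 - i) := by
    rcases le_or_gt i (n + 1) with h | h
    · have := Nat.choose_succ_right_eq (n + 1) i
      have h' : (((n + 1).choose (i + 1) * (i + 1) : ℕ) : ℤ)
          = (((n + 1).choose i * (n + 1 - i) : ℕ) : ℤ) := by rw [this]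
      push_cast [Nat.cast_sub h] at h'
      exact h'
    · rw [Nat.choose_eq_zero_of_lt h, Nat.choose_eq_zero_of_lt (by omega)]; simp
  have hc : ((n : ℤ) + 1) * (n.choose (i + 1) : ℤ)
      = ((n : ℤ) - i) * ((n + 1).choose (i + 1) : ℤ) := by
    rcases le_or_gt (i + 1) (n + 1) with h | h
    · have := Nat.choose_mul_succ_eq n (i + 1)
      rw [Nat.add_sub_add_right] at this
      have h' : ((n.choose (i + 1) * (n + 1) : ℕ) : ℤ)
          = (((n + 1).choose (i + 1) * (n - i) : ℕ) : ℤ) := by rw [this]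
      push_cast [Nat.cast_sub (show i ≤ n by omega)] at h'
      linarith
    · rw [Nat.choose_eq_zero_of_lt (by omega), Nat.choose_eq_zero_of_lt (by omega)]; simp
  rw [hp]
  linear_combination (-(n : ℤ) - 3 - i) * hab + ((n : ℤ) + 1) * hc

theorem D_rec (n k : ℕ) :
    ((n : ℤ) + 2) ^ 2 * D (n + 2) k
      = ((k : ℤ) ^ 2 + k + 1 + 2 * ((n : ℤ) + 1) * (n + 2)) * D (n + 1) k
        - ((n : ℤ) + 1) ^ 2 * D n k := by
  have key : ∀ J : ℕ, ∑ j ∈ Finset.range (J + 1),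
      (((n : ℤ) + 2) ^ 2 * (((n + 2).choose j : ℤ) * q k j)
        - ((k : ℤ) ^ 2 + k + 1 + 2 * ((n : ℤ) + 1) * (n + 2)) * (((n + 1).choose j : ℤ) * q k j)
        + ((n : ℤ) + 1) ^ 2 * ((n.choose j : ℤ) * q k j))
      = - ((J : ℤ) + 1) ^ 2 * ((n + 1).choose J : ℤ) * q k (J + 1) := by
    intro J
    induction J with
    | zero =>
      have h0 := q_rec k 0
      simp only [Nat.cast_zero, zero_add, one_pow, one_mul, zero_mul, sub_zero] at h0
      simp only [zero_add, Finset.sum_range_one, Nat.choose_zero_right, Nat.cast_one, one_mul,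
        Nat.cast_zero, one_pow, mul_one]
      rw [h0]
      have : q k 0 = 1 := by simp [q]
      rw [this]; ring
    | succ J ih =>
      rw [Finset.sum_range_succ, ih]
      have hr := q_rec k (J + 1)
      have hco := coef n J
      push_cast at hr ⊢
      linear_combination (q k (J + 1)) * hco + ((n + 1).choose (J + 1) : ℤ) * hr
  have h := key (n + 2)
  rw [Finset.sum_add_distrib, Finset.sum_sub_distrib, ← Finset.mul_sum, ← Finset.mul_sum,
    ← Finset.mul_sum, D_ext (n + 2) k _ (by omega), D_ext (n + 1) k _ (by omega),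
    D_ext n k _ (by omega), Nat.choose_eq_zero_of_lt (show n + 1 < n + 2 by omega)] at h
  simp only [Nat.cast_zero, mul_zero, zero_mul] at h
  linarith

/-- `S_n(k^2+k+1) = (n!)^2 D(n,k)`. -/
theorem eval_closed (n k : ℕ) :
    (S n).eval ((k : ℤ) ^ 2 + k + 1) = ((n.factorial : ℤ)) ^ 2 * D n k := by
  induction n using Nat.strong_induction_on with
  | _ n ih =>
    match n, ih with
    | 0, _ => simp [S, D, q]
    | 1, _ =>
      simp [S, D, q, Finset.sum_range_succ]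
      ring
    | (n + 2), ih =>
      rw [eval_rec, ih (n + 1) (by omega), ih n (by omega)]
      have hD := D_rec n k
      have f1 : ((n + 1).factorial : ℤ) = ((n : ℤ) + 1) * (n.factorial : ℤ) := by
        rw [Nat.factorial_succ]; push_cast; ring
      have f2 : ((n + 2).factorial : ℤ) = ((n : ℤ) + 2) * (((n : ℤ) + 1) * (n.factorial : ℤ)) := by
        rw [Nat.factorial_succ, Nat.factorial_succ]; push_cast; ring
      rw [f1, f2]
      linear_combination (-(((n : ℤ) + 1) * (n.factorial : ℤ)) ^ 2) * hD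

theorem hensel (r : ℤ) (hr : Odd r) (N : ℕ) :
    ∃ k : ℕ, (2 : ℤ) ^ (N + 1) ∣ ((k : ℤ) ^ 2 + k + 1) - r := by
  induction N with
  | zero =>
    refine ⟨0, ?_⟩
    obtain ⟨c, hc⟩ := hr
    exact ⟨-c, by rw [hc]; push_cast; ring⟩
  | succ N ih =>
    obtain ⟨k, m, hm⟩ := ih
    rcases Int.even_or_odd m with ⟨c, hc⟩ | ⟨c, hc⟩
    · exact ⟨k, c, by rw [hm, hc]; ring⟩
    · refine ⟨k + 2 ^ (N + 1), c + k + 1 + 2 ^ N, ?_⟩
      push_cast
      have : (((k : ℤ) + 2 ^ (N + 1)) ^ 2 + (k + 2 ^ (N + 1)) + 1) - r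
          = (((k : ℤ) ^ 2 + k + 1) - r) + 2 ^ (N + 1) * (2 * k + 1 + 2 ^ (N + 1)) := by ring
      rw [this, hm, hc]
      ring

/-- No odd integer is a root of `S_n`. -/
theorem no_odd_root (n : ℕ) (r : ℤ) (hr : Odd r) : (S n).eval r ≠ 0 := by
  intro h0
  set F : ℕ := n.factorial ^ 2 with hF
  obtain ⟨k, hk⟩ := hensel r hr F
  have h1 : (2 : ℤ) ^ (F + 1) ∣ (S n).eval ((k : ℤ) ^ 2 + k + 1) - (S n).eval r :=
    hk.trans (Polynomial.sub_dvd_eval_sub _ _ _)
  rw [h0, sub_zero, eval_closed] at h1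
  have hcop : IsCoprime ((2 : ℤ) ^ (F + 1)) (D n k) := by
    apply IsCoprime.pow_left
    rw [Int.isCoprime_iff_gcd_eq_one]
    obtain ⟨c, hc⟩ := D_odd n k
    rw [hc]
    rw [← Int.isCoprime_iff_gcd_eq_one]
    exact ⟨-c, 1, by ring⟩
  have h2 : (2 : ℤ) ^ (F + 1) ∣ ((n.factorial : ℤ)) ^ 2 := hcop.dvd_of_dvd_mul_right h1
  have h3 : (2 : ℤ) ^ (F + 1) ≤ ((n.factorial : ℤ)) ^ 2 :=
    Int.le_of_dvd (by positivity) h2
  have h4 : 2 ^ (F + 1) ≤ F := by
    have : ((2 ^ (F + 1) : ℕ) : ℤ) ≤ ((F : ℕ) : ℤ) := by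
      rw [hF]; push_cast; exact_mod_cast h3
    exact_mod_cast this
  have h5 : F + 1 < 2 ^ (F + 1) := Nat.lt_two_pow_self
  omega

/-- Parity of `S_n(r)` for even `r`. -/
theorem parity (r : ℤ) (hr : Even r) (n : ℕ) :
    (Even n → Odd ((S n).eval r)) ∧ (Odd n → Even ((S n).eval r)) := by
  induction n using Nat.strong_induction_on with
  | _ n ih =>
    match n, ih with
    | 0, _ => exact ⟨fun _ => by simp [S], fun h => by simp at h⟩
    | 1, _ => exact ⟨fun h => by simp at h, fun _ => by simpa [S] using hr⟩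
    | (n + 2), ih =>
      rw [eval_rec]
      obtain ⟨c, hc⟩ := hr
      have i0 := ih n (by omega)
      have i1 := ih (n + 1) (by omega)
      constructor
      · intro h
        have hn : Even n := by
          rcases h with ⟨t, ht⟩; exact ⟨t - 1, by omega⟩
        have e1 : Even ((r + 2 * ((n : ℤ) + 1) * ((n : ℤ) + 2)) * (S (n + 1)).eval r) := by
          apply Even.mul_right
          exact ⟨c + ((n : ℤ) + 1) * ((n : ℤ) + 2), by rw [hc]; ring⟩
        have e2 : Odd (((n : ℤ) + 1) ^ 4 * (S n).eval r) := by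
          apply Odd.mul _ (i0.1 hn)
          apply Odd.pow
          have : Even (n : ℤ) := by exact_mod_cast hn
          exact this.add_one
        exact e1.sub_odd e2
      · intro h
        have hn : Odd n := by
          rcases h with ⟨t, ht⟩; exact ⟨t - 1, by omega⟩
        have e1 : Even ((r + 2 * ((n : ℤ) + 1) * ((n : ℤ) + 2)) * (S (n + 1)).eval r) := by
          apply Even.mul_right
          exact ⟨c + ((n : ℤ) + 1) * ((n : ℤ) + 2), by rw [hc]; ring⟩
        have e2 : Even (((n : ℤ) + 1) ^ 4 * (S n).eval r) := (i0.2 hn).mul_left _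
        exact e1.sub e2

/-- Divided differences at two even points. -/
theorem divdiff (r t : ℤ) (hr : Even r) (ht : Even t) (n : ℕ) :
    ∃ d : ℤ, (S n).eval r - (S n).eval t = (r - t) * d ∧
      (Odd n → Odd d) ∧ (Even n → Even d) := by
  induction n using Nat.strong_induction_on with
  | _ n ih =>
    match n, ih with
    | 0, _ => exact ⟨0, by simp [S], fun h => by simp at h, fun _ => by simp⟩
    | 1, _ => exact ⟨1, by simp [S], fun _ => by simp, fun h => by simp at h⟩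
    | (n + 2), ih =>
      obtain ⟨d0, e0, o0, v0⟩ := ih n (by omega)
      obtain ⟨d1, e1, o1, v1⟩ := ih (n + 1) (by omega)
      refine ⟨(S (n + 1)).eval t + (r + 2 * ((n : ℤ) + 1) * ((n : ℤ) + 2)) * d1
        - ((n : ℤ) + 1) ^ 4 * d0, ?_, ?_, ?_⟩
      · rw [eval_rec, eval_rec]
        linear_combination (r + 2 * ((n : ℤ) + 1) * ((n : ℤ) + 2)) * e1
          - ((n : ℤ) + 1) ^ 4 * e0
      · intro h
        have hn : Odd n := by
          rcases h with ⟨s, hs⟩; exact ⟨s - 1, by omega⟩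
        have p1 : Odd ((S (n + 1)).eval t) := (parity t ht (n + 1)).1 hn.add_one
        have p2 : Even ((r + 2 * ((n : ℤ) + 1) * ((n : ℤ) + 2)) * d1) := by
          apply Even.mul_right
          obtain ⟨c, hc⟩ := hr
          exact ⟨c + ((n : ℤ) + 1) * ((n : ℤ) + 2), by rw [hc]; ring⟩
        have p3 : Even (((n : ℤ) + 1) ^ 4 * d0) := by
          apply Even.mul_right
          have : Odd (n : ℤ) := by exact_mod_cast hn
          exact (this.add_one).pow_of_ne_zero (by norm_num)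
        exact (p1.add_even p2).sub_even p3
      · intro h
        have hn : Even n := by
          rcases h with ⟨s, hs⟩; exact ⟨s - 1, by omega⟩
        have p1 : Even ((S (n + 1)).eval t) := (parity t ht (n + 1)).2 hn.add_one
        have p2 : Even ((r + 2 * ((n : ℤ) + 1) * ((n : ℤ) + 2)) * d1) := by
          apply Even.mul_right
          obtain ⟨c, hc⟩ := hr
          exact ⟨c + ((n : ℤ) + 1) * ((n : ℤ) + 2), by rw [hc]; ring⟩
        have p3 : Even (((n : ℤ) + 1) ^ 4 * d0) := (v0 hn).mul_left _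
        exact (p1.add p2).sub p3

theorem int_root (n : ℕ) (x : ℚ) (hx : aeval x (S n) = 0) :
    ∃ r : ℤ, x = r ∧ (S n).eval r = 0 := by
  obtain ⟨r, hr⟩ := isInteger_of_is_root_of_monic (monic_deg n).1 hx
  refine ⟨r, by simpa using hr.symm, ?_⟩
  have h : aeval ((r : ℤ) : ℚ) (S n) = 0 := by
    have : x = ((r : ℤ) : ℚ) := by simpa using hr.symm
    rw [← this]; exact hx
  have h2 : (((S n).eval r : ℤ) : ℚ) = 0 := by
    have h3 := Polynomial.aeval_algebraMap_apply_eq_algebraMap_eval (A := ℚ) r (S n)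
    simp only [eq_intCast] at h3
    rw [← h3]; exact h
  exact_mod_cast h2

/-- Below `-4n^2` there is no root. -/
theorem low (n : ℕ) (r : ℤ) (hr : r ≤ -4 * (n : ℤ) ^ 2) (j : ℕ) (hj : j + 1 ≤ n) :
    (n : ℤ) ^ 2 * |(S j).eval r| ≤ |(S (j + 1)).eval r| ∧ 0 < |(S j).eval r| := by
  have hn : (1 : ℤ) ≤ n := by exact_mod_cast (by omega : 1 ≤ n)
  induction j with
  | zero =>
    have e0 : (S 0).eval r = 1 := by simp [S]
    have e1 : (S (0 + 1)).eval r = r := by simp [S]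
    rw [e0, e1]
    have : r ≤ 0 := by nlinarith
    rw [abs_of_nonpos this]
    constructor
    · simp only [abs_one, mul_one]; nlinarith
    · simp
  | succ j ih =>
    obtain ⟨h1, h2⟩ := ih (by omega)
    have hj' : (j : ℤ) + 2 ≤ n := by exact_mod_cast (by omega : j + 2 ≤ n)
    have hj0 : (0 : ℤ) ≤ j := by positivity
    have hpos : 0 < |(S (j + 1)).eval r| := lt_of_lt_of_le (by positivity) h1
    refine ⟨?_, hpos⟩
    rw [eval_rec]
    set A := (S (j + 1)).eval r with hA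
    set B := (S j).eval r with hB
    have t1 : |(r + 2 * ((j : ℤ) + 1) * ((j : ℤ) + 2)) * A| - |((j : ℤ) + 1) ^ 4 * B|
        ≤ |(r + 2 * ((j : ℤ) + 1) * ((j : ℤ) + 2)) * A - ((j : ℤ) + 1) ^ 4 * B| :=
      abs_sub_abs_le_abs_sub _ _
    rw [abs_mul, abs_mul] at t1
    have b1 : ((j : ℤ) + 1) * ((j : ℤ) + 2) ≤ (n : ℤ) ^ 2 := by nlinarith
    have c1 : 2 * (n : ℤ) ^ 2 ≤ |r + 2 * ((j : ℤ) + 1) * ((j : ℤ) + 2)| := by
      have : r + 2 * ((j : ℤ) + 1) * ((j : ℤ) + 2) ≤ - (2 * (n : ℤ) ^ 2) := by nlinarith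
      rw [abs_of_nonpos (by nlinarith [sq_nonneg (n : ℤ)])]
      linarith
    have b2 : ((j : ℤ) + 1) ^ 2 ≤ (n : ℤ) ^ 2 := by nlinarith
    have c2 : |((j : ℤ) + 1) ^ 4| ≤ (n : ℤ) ^ 2 * (n : ℤ) ^ 2 := by
      rw [abs_of_nonneg (by positivity)]
      have : ((j : ℤ) + 1) ^ 4 = ((j : ℤ) + 1) ^ 2 * ((j : ℤ) + 1) ^ 2 := by ring
      rw [this]
      exact mul_le_mul b2 b2 (by positivity) (by positivity)
    have d1 : 2 * (n : ℤ) ^ 2 * |A| ≤ |r + 2 * ((j : ℤ) + 1) * ((j : ℤ) + 2)| * |A| :=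
      mul_le_mul_of_nonneg_right c1 (abs_nonneg _)
    have d2 : |((j : ℤ) + 1) ^ 4| * |B| ≤ (n : ℤ) ^ 2 * (n : ℤ) ^ 2 * |B| :=
      mul_le_mul_of_nonneg_right c2 (abs_nonneg _)
    have d3 : (n : ℤ) ^ 2 * ((n : ℤ) ^ 2 * |B|) ≤ (n : ℤ) ^ 2 * |A| :=
      mul_le_mul_of_nonneg_left h1 (by positivity)
    nlinarith

/-- There is no root `≥ 1`. -/
theorem high (r : ℤ) (hr : 1 ≤ r) (j : ℕ) :
    ((j : ℤ) + 1) ^ 2 * (S j).eval r ≤ (S (j + 1)).eval r ∧ 0 < (S j).eval r := by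
  induction j with
  | zero =>
    have e0 : (S 0).eval r = 1 := by simp [S]
    have e1 : (S (0 + 1)).eval r = r := by simp [S]
    rw [e0, e1]
    constructor
    · simpa using hr
    · norm_num
  | succ j ih =>
    obtain ⟨h1, h2⟩ := ih
    have hpos : 0 < (S (j + 1)).eval r := lt_of_lt_of_le (by positivity) h1
    refine ⟨?_, hpos⟩
    rw [eval_rec]
    set A := (S (j + 1)).eval r with hA
    set B := (S j).eval r with hB
    have d3 : ((j : ℤ) + 1) ^ 2 * (((j : ℤ) + 1) ^ 2 * B) ≤ ((j : ℤ) + 1) ^ 2 * A :=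
      mul_le_mul_of_nonneg_left h1 (by positivity)
    have d4 : 0 ≤ (r - 1) * A := mul_nonneg (by linarith) hpos.le
    push_cast
    nlinarith

/-- The even root of `S_{2m+1}` modulo a power of two. -/
theorem twoadic (m b : ℕ) (hm : 1 ≤ m) (hb : 2 ^ b ∣ m) (r : ℤ) (hr : Even r)
    (h0 : (S (2 * m + 1)).eval r = 0) :
    (2 : ℤ) ^ (6 + 4 * b) ∣ r + 4 * (m : ℤ) * (2 * m + 1) := by
  obtain ⟨l, rfl⟩ : ∃ l, m = l + 1 := ⟨m - 1, by omega⟩
  have e : 2 * (l + 1) + 1 = (2 * l + 1) + 2 := by ring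
  rw [e, eval_rec] at h0
  have hodd : Odd ((S (2 * l + 1 + 1)).eval r) := (parity r hr _).1 ⟨l + 1, by ring⟩
  have hcop : ∀ N : ℕ, IsCoprime ((2 : ℤ) ^ N) ((S (2 * l + 1 + 1)).eval r) := by
    intro N
    apply IsCoprime.pow_left
    obtain ⟨c, hc⟩ := hodd
    rw [hc]
    exact ⟨-c, 1, by ring⟩
  have h4 : (4 : ℤ) ∣ r := by
    have : (2 : ℤ) ^ 2 ∣ r * (S (2 * l + 1 + 1)).eval r := by
      refine ⟨4 * ((l : ℤ) + 1) ^ 4 * (S (2 * l + 1)).eval r
        - ((l : ℤ) + 1) * (2 * l + 3) * (S (2 * l + 1 + 1)).eval r, ?_⟩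
      push_cast at h0
      linear_combination h0
    have := (hcop 2).dvd_of_dvd_mul_right this
    norm_num at this
    exact this
  have h5 : (4 : ℤ) ∣ (S (2 * l + 1)).eval r := by
    rcases Nat.eq_zero_or_pos l with hl | hl
    · subst hl; simpa [S] using h4
    · obtain ⟨i, rfl⟩ : ∃ i, l = i + 1 := ⟨l - 1, by omega⟩
      have e' : 2 * (i + 1) + 1 = (2 * i + 1) + 2 := by ring
      rw [e', eval_rec]
      obtain ⟨c, hc⟩ := h4
      refine ⟨(c + ((i : ℤ) + 1) * (2 * i + 3)) * (S (2 * i + 1 + 1)).eval r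
        - 4 * ((i : ℤ) + 1) ^ 4 * (S (2 * i + 1)).eval r, ?_⟩
      rw [hc]
      push_cast
      ring
  obtain ⟨c, hc⟩ := h5
  obtain ⟨d, hd⟩ := hb
  have hd' : ((l : ℤ) + 1) = 2 ^ b * d := by exact_mod_cast hd
  apply (hcop (6 + 4 * b)).dvd_of_dvd_mul_right
  refine ⟨(d : ℤ) ^ 4 * c, ?_⟩
  push_cast at h0 ⊢
  have h6 : (r + 4 * ((l : ℤ) + 1) * (2 * ((l : ℤ) + 1) + 1)) * (S (2 * l + 1 + 1)).eval r
      = 64 * ((l : ℤ) + 1) ^ 4 * c := by
    linear_combination h0 + 16 * ((l : ℤ) + 1) ^ 4 * hc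
  rw [h6, hd']
  ring

/-- No rational root of `S_{2m+1}` if a large power of two divides `m`. -/
theorem odd_case (m b : ℕ) (hm : 1 ≤ m) (hb1 : 1 ≤ b) (hb : 2 ^ b ∣ m)
    (hlarge : 2 * m + 1 ≤ 2 ^ (2 * b + 2)) (r : ℤ) (hr : Even r) :
    (S (2 * m + 1)).eval r ≠ 0 := by
  intro h0
  have hdv := twoadic m b hm hb r hr h0
  have hlow : -4 * ((2 * m + 1 : ℕ) : ℤ) ^ 2 < r := by
    by_contra h
    have := low (2 * m + 1) r (by linarith) (2 * m) (by omega)
    rw [h0] at this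
    simp only [abs_zero] at this
    have h1 := this.1
    have h2 := this.2
    have : (0 : ℤ) < ((2 * m + 1 : ℕ) : ℤ) ^ 2 * |(S (2 * m)).eval r| := by positivity
    linarith
  have hhigh : r ≤ 0 := by
    by_contra h
    have := (high r (by omega) (2 * m + 1)).2
    rw [h0] at this
    exact lt_irrefl _ this
  have hpow : 4 * ((2 * m + 1 : ℕ) : ℤ) ^ 2 ≤ (2 : ℤ) ^ (6 + 4 * b) := by
    have h1 : ((2 * m + 1 : ℕ) : ℤ) ≤ (2 : ℤ) ^ (2 * b + 2) := by exact_mod_cast hlarge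
    have h2 : (2 : ℤ) ^ (6 + 4 * b) = 4 * ((2 : ℤ) ^ (2 * b + 2)) ^ 2 := by
      rw [← pow_mul]; rw [show 6 + 4 * b = 2 + (2 * b + 2) * 2 by ring, pow_add]; norm_num
    rw [h2]
    have h3 : (0 : ℤ) ≤ ((2 * m + 1 : ℕ) : ℤ) := by positivity
    nlinarith
  have hm' : (1 : ℤ) ≤ m := by exact_mod_cast hm
  have hz : r + 4 * (m : ℤ) * (2 * m + 1) = 0 := by
    apply Int.eq_zero_of_abs_lt_dvd hdv
    rw [abs_lt]
    push_cast at hlow hpow ⊢
    constructor <;> nlinarith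
  obtain ⟨l, rfl⟩ : ∃ l, m = l + 1 := ⟨m - 1, by omega⟩
  have e : 2 * (l + 1) + 1 = (2 * l + 1) + 2 := by ring
  rw [e, eval_rec] at h0
  have h7 : (S (2 * l + 1)).eval r = 0 := by
    push_cast at h0 hz
    have h8 : 16 * ((l : ℤ) + 1) ^ 4 * (S (2 * l + 1)).eval r = 0 := by
      linear_combination (S (2 * l + 1 + 1)).eval r * hz - h0
    have h9 : (16 * ((l : ℤ) + 1) ^ 4) ≠ 0 := by positivity
    exact (mul_eq_zero.mp h8).resolve_left h9
  have h2l : 2 ∣ l + 1 := (dvd_pow_self 2 (by omega)).trans hb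
  have hl : 1 ≤ l := by omega
  have h10 := twoadic l 0 hl (by simp) r hr h7
  obtain ⟨u, hu⟩ := h10
  obtain ⟨w, hw⟩ := h2l
  have hw' : (l : ℤ) + 1 = 2 * w := by exact_mod_cast hw
  push_cast at hz hu
  have hl' : (l : ℤ) = 2 * w - 1 := by linarith
  rw [hl'] at hz hu
  have h11 : 4 - 32 * (w : ℤ) = 64 * u := by
    linear_combination hu - hz
  omega

/-- A rational root of `S_n` can exist only if `n` is odd, and it is then an even integer;
`S_n` has at most one rational root; and if `n = 2m+1` with `2^b ∣ m`, `b ≥ 1` and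
`3 ≤ n ≤ 4^(b+1)`, then `S_n` has no rational root either. -/
theorem result :
    (∀ n : ℕ, ∀ x : ℚ, aeval x (S n) = 0 → Odd n ∧ ∃ r : ℤ, Even r ∧ x = r) ∧
    (∀ n : ℕ, ∀ x y : ℚ, aeval x (S n) = 0 → aeval y (S n) = 0 → x = y) ∧
    (∀ m b : ℕ, 1 ≤ m → 1 ≤ b → 2 ^ b ∣ m → 2 * m + 1 ≤ 4 ^ (b + 1) →
      ∀ x : ℚ, aeval x (S (2 * m + 1)) ≠ 0) := by
  have main : ∀ n : ℕ, ∀ x : ℚ, aeval x (S n) = 0 →
      Odd n ∧ ∃ r : ℤ, Even r ∧ x = r ∧ (S n).eval r = 0 := by
    intro n x hx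
    obtain ⟨r, hr, h0⟩ := int_root n x hx
    have hev : Even r := by
      by_contra h
      exact no_odd_root n r (Int.not_even_iff_odd.mp h) h0
    refine ⟨?_, r, hev, hr, h0⟩
    by_contra h
    have := (parity r hev n).1 (Nat.not_odd_iff_even.mp h)
    rw [h0] at this
    simp at this
  refine ⟨fun n x hx => ?_, fun n x y hx hy => ?_, fun m b hm hb1 hb hl x hx => ?_⟩
  · obtain ⟨h, r, h1, h2, _⟩ := main n x hx
    exact ⟨h, r, h1, h2⟩
  · obtain ⟨h, r, h1, h2, h3⟩ := main n x hx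
    obtain ⟨_, t, g1, g2, g3⟩ := main n y hy
    obtain ⟨d, e, o, _⟩ := divdiff r t h1 g1 n
    rw [h3, g3, sub_zero] at e
    have hd : d ≠ 0 := by
      intro h0
      have := o h
      rw [h0] at this
      simp at this
    have : r - t = 0 := by
      rcases mul_eq_zero.mp e.symm with h' | h'
      · exact h'
      · exact absurd h' hd
    rw [h2, g2]
    exact_mod_cast sub_eq_zero.mp this
  · obtain ⟨_, r, h1, _, h3⟩ := main _ x hx
    refine odd_case m b hm hb1 hb ?_ r h1 h3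
    calc 2 * m + 1 ≤ 4 ^ (b + 1) := hl
      _ = 2 ^ (2 * b + 2) := by
        rw [show (4 : ℕ) = 2 ^ 2 by norm_num, ← pow_mul]; congr 1

end Pool.Agent.Results.MP_11e6b7_nt.RationalRoots
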